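import Mathlib

/-!
Exponential sums of quadratic functions with values in `ZMod 2`.
-/

set_option autoImplicit false

namespace Pool.Agent.H81

open Finset

/-- The sign `(-1)^a` of `a : ZMod 2`. -/
def sgn (a : ZMod 2) : ℤ := if a = 0 then 1 else -1

lemma sgn_zero : sgn 0 = 1 := by simp [sgn]

lemma sgn_add (a b : ZMod 2) : sgn (a + b) = sgn a * sgn b := by
  revert a b; decide

lemma sgn_sq (a : ZMod 2) : sgn a * sgn a = 1 := by
  revert a; decide

lemma sgn_le_one (a : ZMod 2) : sgn a ≤ 1 := by
  revert a; decide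

lemma zmod2_cases (a : ZMod 2) : a = 0 ∨ a = 1 := by
  revert a; decide

lemma zmod2_add_self (a : ZMod 2) : a + a = 0 := by
  revert a; decide

/-- orthogonality for a homomorphism to `ZMod 2`. -/
lemma sum_sgn_hom {G : Type*} [AddCommGroup G] [Fintype G] (φ : G → ZMod 2)
    (hφ : ∀ x y, φ (x + y) = φ x + φ y) (g : G) (hg : φ g = 1) :
    ∑ x : G, sgn (φ x) = 0 := by
  have h1 : ∑ x : G, sgn (φ x) = ∑ x : G, sgn (φ (x + g)) :=
    (Equiv.sum_comp (Equiv.addRight g) (fun x => sgn (φ x))).symm
  have h2 : ∑ x : G, sgn (φ (x + g)) = - ∑ x : G, sgn (φ x) := by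
    rw [← Finset.sum_neg_distrib]
    refine Finset.sum_congr rfl fun x _ => ?_
    rw [hφ, hg, sgn_add]
    simp [sgn]
  omega

variable {F : Type*} [AddCommGroup F]

/-- polarisation of a function to `ZMod 2`. -/
def Bil (f : F → ZMod 2) (x y : F) : ZMod 2 := f (x + y) + f x + f y

/-- `f` is a quadratic function: its polarisation is biadditive. -/
def IsQuad (f : F → ZMod 2) : Prop :=
  ∀ x y z, Bil f (x + y) z = Bil f x z + Bil f y z

lemma Bil_comm (f : F → ZMod 2) (x y : F) : Bil f x y = Bil f y x := by
  unfold Bil; rw [add_comm x y]; ring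

lemma IsQuad.right {f : F → ZMod 2} (hf : IsQuad f) (x y z : F) :
    Bil f x (y + z) = Bil f x y + Bil f x z := by
  rw [Bil_comm, hf, Bil_comm f y, Bil_comm f z]

/-- adding an additive function does not change the radical. -/
lemma Bil_add_hom (f w : F → ZMod 2) (hw : ∀ x y, w (x + y) = w x + w y) (x y : F) :
    Bil (fun x => f x + w x) x y = Bil f x y := by
  unfold Bil
  simp only [hw]
  have e1 := zmod2_add_self (w x)
  have e2 := zmod2_add_self (w y)
  linear_combination e1 + e2

lemma IsQuad_add_hom {f : F → ZMod 2} (hf : IsQuad f) (w : F → ZMod 2)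
    (hw : ∀ x y, w (x + y) = w x + w y) : IsQuad (fun x => f x + w x) := by
  intro x y z
  simp only [Bil_add_hom f w hw]
  exact hf x y z

variable [Fintype F]

/-- the exponential sum of `f`. -/
def S (f : F → ZMod 2) : ℤ := ∑ x : F, sgn (f x)

open Classical in
/-- the radical of a function, as a finset. -/
noncomputable def rad (f : F → ZMod 2) : Finset F :=
  Finset.univ.filter (fun v => ∀ y, Bil f v y = 0)

lemma mem_rad {f : F → ZMod 2} {v : F} : v ∈ rad f ↔ ∀ y, Bil f v y = 0 := by
  simp [rad]

lemma sum_sgn_Bil [DecidableEq F] {f : F → ZMod 2} (hf : IsQuad f) (u : F) :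
    ∑ x : F, sgn (Bil f u x) = if u ∈ rad f then (Fintype.card F : ℤ) else 0 := by
  split_ifs with hu
  · rw [mem_rad] at hu
    simp [hu, sgn_zero]
  · rw [mem_rad] at hu
    push Not at hu
    obtain ⟨y, hy⟩ := hu
    have hy1 : Bil f u y = 1 := by
      rcases zmod2_cases (Bil f u y) with h | h
      · exact absurd h hy
      · exact h
    exact sum_sgn_hom (fun x => Bil f u x) (fun x y => hf.right u x y) y hy1

/-- the square of the exponential sum of a quadratic function. -/
lemma S_sq {f : F → ZMod 2} (hf : IsQuad f) :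
    S f ^ 2 = (Fintype.card F : ℤ) * ∑ u ∈ rad f, sgn (f u) := by
  classical
  have h1 : S f ^ 2 = ∑ x : F, ∑ u : F, sgn (f u) * sgn (Bil f u x) := by
    rw [sq, S, Finset.sum_mul_sum]
    refine Finset.sum_congr rfl fun x _ => ?_
    rw [← Equiv.sum_comp (Equiv.addRight x) (fun y => sgn (f x) * sgn (f y))]
    refine Finset.sum_congr rfl fun u _ => ?_
    rw [← sgn_add, ← sgn_add]
    congr 1
    simp only [Equiv.coe_addRight, Bil]
    have := zmod2_add_self (f u)
    linear_combination (-1 : ZMod 2) * this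
  rw [h1, Finset.sum_comm]
  have h3 : ∀ u : F, ∑ x : F, sgn (f u) * sgn (Bil f u x)
      = if u ∈ rad f then (Fintype.card F : ℤ) * sgn (f u) else 0 := by
    intro u
    rw [← Finset.mul_sum, sum_sgn_Bil hf u]
    split_ifs <;> ring
  rw [Finset.sum_congr rfl fun u _ => h3 u, ← Finset.sum_filter, Finset.mul_sum]
  congr 1
  ext u; simp

/-- the square of the exponential sum is `0` or `q * |rad|`. -/
lemma S_sq_of_ne (h2 : ∀ x : F, x + x = 0) {f : F → ZMod 2} (hf : IsQuad f) (hS : S f ≠ 0) :
    S f ^ 2 = (Fintype.card F : ℤ) * (rad f).card := by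
  rw [S_sq hf]
  congr 1
  by_cases h : ∀ u ∈ rad f, f u = 0
  · rw [Finset.sum_congr rfl fun u hu => by rw [h u hu, sgn_zero]]
    simp
  · exfalso
    push Not at h
    obtain ⟨v, hv, hfv⟩ := h
    have hfv1 : f v = 1 := by
      rcases zmod2_cases (f v) with h | h
      · exact absurd h hfv
      · exact h
    have key : ∑ u ∈ rad f, sgn (f u) = 0 := by
      have h1 : ∑ u ∈ rad f, sgn (f u) = ∑ u ∈ rad f, sgn (f (u + v)) := by
        refine (Finset.sum_bij' (fun u _ => u + v) (fun u _ => u + v) ?_ ?_ ?_ ?_ ?_).symm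
        · intro u hu
          rw [mem_rad] at *
          intro y; rw [hf, hu, hv, add_zero]
        · intro u hu
          rw [mem_rad] at *
          intro y; rw [hf, hu, hv, add_zero]
        · intro u _; simp [add_assoc, h2]
        · intro u _; simp [add_assoc, h2]
        · intro u _; rfl
      have h3 : ∑ u ∈ rad f, sgn (f (u + v)) = - ∑ u ∈ rad f, sgn (f u) := by
        rw [← Finset.sum_neg_distrib]
        refine Finset.sum_congr rfl fun u hu => ?_
        have hb : Bil f u v = 0 := (mem_rad.1 hu) v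
        have : f (u + v) = f u + f v := by
          unfold Bil at hb
          have e1 := zmod2_add_self (f u)
          have e2 := zmod2_add_self (f v)
          linear_combination hb - e1 - e2
        rw [this, hfv1, sgn_add]
        simp [sgn]
      omega
    have : S f ^ 2 = 0 := by rw [S_sq hf, key, mul_zero]
    exact hS (pow_eq_zero_iff (two_ne_zero) |>.1 this)

lemma rad_add_hom (f w : F → ZMod 2) (hw : ∀ x y, w (x + y) = w x + w y) :
    rad (fun x => f x + w x) = rad f := by
  ext v; simp only [mem_rad, Bil_add_hom f w hw]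

end Pool.Agent.H81
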