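import Mathlib
import Pool.Agent.H81.QuadSum

/-!
The quadratic functions `Tr (a x + b x^3 + c x^5)` on a finite field of characteristic two.
-/

set_option autoImplicit false
set_option linter.unusedSectionVars false
set_option linter.unusedSimpArgs false

namespace Pool.Agent.H81

open Finset

section basics

variable {F : Type*} [Field F] [Algebra (ZMod 2) F]

lemma two_eq_zero' : (2 : F) = 0 := by
  have := congrArg (algebraMap (ZMod 2) F) (show (2 : ZMod 2) = 0 by decide)
  rwa [map_ofNat, map_zero] at this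

lemma add_self_F (x : F) : x + x = 0 := by
  have := two_eq_zero' (F := F)
  linear_combination x * this

lemma add_eq_zero_iff_F {x y : F} : x + y = 0 ↔ x = y := by
  constructor
  · intro h; linear_combination h - add_self_F y
  · rintro rfl; exact add_self_F x

instance instCharP2 : CharP F 2 :=
  charP_of_injective_algebraMap (algebraMap (ZMod 2) F).injective 2

/-- the trace to `ZMod 2`. -/
noncomputable def tr (x : F) : ZMod 2 := Algebra.trace (ZMod 2) F x

lemma tr_add (x y : F) : tr (x + y) = tr x + tr y := by simp [tr]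

lemma tr_zero : tr (0 : F) = 0 := by simp [tr]

/-- first Dickson type invariant of a pair. -/
def PB (p : F × F) : F := p.1 ^ 2 * p.2 + p.1 * p.2 ^ 2

/-- second Dickson type invariant of a pair. -/
def RB (p : F × F) : F := p.1 ^ 4 * p.2 + p.1 * p.2 ^ 4

/-- the bilinear form attached to `(b,c)`. -/
noncomputable def Bz (z : F × F) (p : F × F) : ZMod 2 := tr (z.1 * PB p + z.2 * RB p)

/-- the quadratic function `Tr (a x + b x^3 + c x^5)`. -/
noncomputable def fB (a : F) (z : F × F) (x : F) : ZMod 2 := tr (a * x + z.1 * x ^ 3 + z.2 * x ^ 5)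

lemma Bil_fB (a : F) (z : F × F) (x y : F) : Bil (fB a z) x y = Bz z (x, y) := by
  unfold Bil fB Bz
  rw [← tr_add, ← tr_add]
  congr 1
  simp only [PB, RB]
  have h2 := two_eq_zero' (F := F)
  linear_combination (a * (x + y) + z.1 * (x ^ 3 + y ^ 3 + x ^ 2 * y + x * y ^ 2) +
    z.2 * (x ^ 5 + y ^ 5 + 2 * x ^ 4 * y + 5 * x ^ 3 * y ^ 2 + 5 * x ^ 2 * y ^ 3 + 2 * x * y ^ 4)) * h2

lemma Bz_add_left (z : F × F) (x y w : F) : Bz z (x + y, w) = Bz z (x, w) + Bz z (y, w) := by
  unfold Bz
  rw [← tr_add]
  congr 1
  simp only [PB, RB]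
  have h2 := two_eq_zero' (F := F)
  linear_combination (z.1 * (x * y * w) +
    z.2 * (2 * x ^ 3 * y * w + 3 * x ^ 2 * y ^ 2 * w + 2 * x * y ^ 3 * w)) * h2

lemma Bz_comm (z : F × F) (x y : F) : Bz z (x, y) = Bz z (y, x) := by
  unfold Bz PB RB; congr 1; ring

lemma Bz_add_right (z : F × F) (x y w : F) : Bz z (w, x + y) = Bz z (w, x) + Bz z (w, y) := by
  rw [Bz_comm, Bz_add_left, Bz_comm z x, Bz_comm z y]

lemma Bz_add_z (z z' : F × F) (p : F × F) : Bz (z + z') p = Bz z p + Bz z' p := by
  unfold Bz
  rw [← tr_add]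
  congr 1
  simp only [Prod.fst_add, Prod.snd_add]; ring

lemma isQuad_fB (a : F) (z : F × F) : IsQuad (fB a z) := by
  intro x y w
  simp only [Bil_fB]
  exact Bz_add_left z x y w

lemma PB_factor (p : F × F) : PB p = p.1 * p.2 * (p.1 + p.2) := by unfold PB; ring

end basics

section finite

variable {F : Type*} [Field F] [Fintype F] [DecidableEq F] [Algebra (ZMod 2) F]

lemma exists_tr_one {a : F} (ha : a ≠ 0) : ∃ b : F, tr (a * b) = 1 := by
  have h := (traceForm_nondegenerate (ZMod 2) F).1 a
  by_contra hcon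
  push Not at hcon
  apply ha
  apply h
  intro b
  rw [Algebra.traceForm_apply]
  rcases zmod2_cases (tr (a * b)) with h1 | h1
  · exact h1
  · exact absurd h1 (hcon b)

lemma tr_nondeg {a : F} (h : ∀ b, tr (a * b) = 0) : a = 0 := by
  by_contra ha
  obtain ⟨b, hb⟩ := exists_tr_one ha
  rw [h b] at hb
  exact absurd hb (by decide)

lemma sum_sgn_tr (a : F) : ∑ x : F, sgn (tr (x * a)) = if a = 0 then (Fintype.card F : ℤ) else 0 := by
  split_ifs with ha
  · subst ha; simp [tr_zero, sgn_zero]
  · obtain ⟨b, hb⟩ := exists_tr_one ha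
    refine sum_sgn_hom (fun x => tr (x * a)) (fun x y => ?_) b ?_
    · rw [add_mul, tr_add]
    · rw [mul_comm]; exact hb

lemma sum_sgn_pair (P R : F) : ∑ z : F × F, sgn (tr (z.1 * P + z.2 * R))
    = if P = 0 ∧ R = 0 then (Fintype.card F : ℤ) ^ 2 else 0 := by
  have : ∀ z : F × F, sgn (tr (z.1 * P + z.2 * R)) = sgn (tr (z.1 * P)) * sgn (tr (z.2 * R)) := by
    intro z; rw [tr_add, sgn_add]
  rw [Finset.sum_congr rfl fun z _ => this z, Fintype.sum_prod_type]
  simp only [← Finset.mul_sum, ← Finset.sum_mul, sum_sgn_tr]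
  by_cases h1 : P = 0 <;> by_cases h2 : R = 0 <;> simp [h1, h2, sq]

/-- the radical of the form attached to `z`. -/
noncomputable def radz (z : F × F) : Finset F := rad (fB 0 z)

lemma mem_radz {z : F × F} {v : F} : v ∈ radz z ↔ ∀ y, Bz z (v, y) = 0 := by
  unfold radz; rw [mem_rad]; simp only [Bil_fB]

lemma rad_fB (a : F) (z : F × F) : rad (fB a z) = radz z := by
  ext v; rw [mem_radz, mem_rad]; simp only [Bil_fB]

/-- size of the radical, as an integer. -/
noncomputable def rho (z : F × F) : ℤ := ((radz z).card : ℤ)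

lemma q_rho (z : F × F) : (Fintype.card F : ℤ) * rho z = ∑ p : F × F, sgn (Bz z p) := by
  rw [Fintype.sum_prod_type]
  have : ∀ v : F, ∑ y : F, sgn (Bz z (v, y)) = if v ∈ radz z then (Fintype.card F : ℤ) else 0 := by
    intro v
    have := sum_sgn_Bil (isQuad_fB 0 z) v
    simp only [Bil_fB] at this
    exact this
  rw [Finset.sum_congr rfl fun v _ => this v, ← Finset.sum_filter]
  simp [rho, mul_comm]

/-- number of pairs with the same invariants. -/
def Npair (p' : F × F) : ℤ := ((Finset.univ.filter (fun p : F × F => PB p = PB p' ∧ RB p = RB p')).card : ℤ)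

lemma card_pos' : (0 : ℤ) < (Fintype.card F : ℤ) := by
  exact_mod_cast Fintype.card_pos

lemma sum_rho_rho (z0 : F × F) :
    ∑ z : F × F, rho z * rho (z + z0) = ∑ p : F × F, sgn (Bz z0 p) * Npair p := by
  have hq := card_pos' (F := F)
  have key : (Fintype.card F : ℤ) ^ 2 * ∑ z : F × F, rho z * rho (z + z0)
      = (Fintype.card F : ℤ) ^ 2 * ∑ p : F × F, sgn (Bz z0 p) * Npair p := by
    calc (Fintype.card F : ℤ) ^ 2 * ∑ z : F × F, rho z * rho (z + z0)
        = ∑ z : F × F, ((Fintype.card F : ℤ) * rho z) * ((Fintype.card F : ℤ) * rho (z + z0)) := by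
          rw [Finset.mul_sum]; refine Finset.sum_congr rfl fun z _ => ?_; ring
      _ = ∑ z : F × F, ∑ p' : F × F, ∑ p : F × F, sgn (Bz z0 p') *
            sgn (tr (z.1 * (PB p + PB p') + z.2 * (RB p + RB p'))) := by
          refine Finset.sum_congr rfl fun z _ => ?_
          rw [q_rho, q_rho, Finset.sum_mul_sum, Finset.sum_comm]
          refine Finset.sum_congr rfl fun p' _ => ?_
          refine Finset.sum_congr rfl fun p _ => ?_
          rw [Bz_add_z, ← sgn_add, ← sgn_add]
          congr 1
          have : tr (z.1 * (PB p + PB p') + z.2 * (RB p + RB p')) = Bz z p + Bz z p' := by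
            unfold Bz; rw [← tr_add]; congr 1; ring
          rw [this]; ring
      _ = ∑ p' : F × F, ∑ p : F × F, sgn (Bz z0 p') *
            ∑ z : F × F, sgn (tr (z.1 * (PB p + PB p') + z.2 * (RB p + RB p'))) := by
          rw [Finset.sum_comm]
          refine Finset.sum_congr rfl fun p' _ => ?_
          rw [Finset.sum_comm]
          refine Finset.sum_congr rfl fun p _ => ?_
          rw [Finset.mul_sum]
      _ = ∑ p' : F × F, sgn (Bz z0 p') * ((Fintype.card F : ℤ) ^ 2 * Npair p') := by
          refine Finset.sum_congr rfl fun p' _ => ?_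
          rw [← Finset.mul_sum]
          congr 1
          simp only [sum_sgn_pair, add_eq_zero_iff_F]
          rw [← Finset.sum_filter]
          simp [Npair, mul_comm]
      _ = (Fintype.card F : ℤ) ^ 2 * ∑ p : F × F, sgn (Bz z0 p) * Npair p := by
          rw [Finset.mul_sum]; refine Finset.sum_congr rfl fun p _ => ?_; ring
  exact mul_left_cancel₀ (pow_ne_zero 2 hq.ne') key

lemma Npair_ge {z0 p' : F × F} (h : Bz z0 p' ≠ 0) : 6 ≤ Npair p' := by
  obtain ⟨v, y⟩ := p'
  have hv : v ≠ 0 := by
    rintro rfl; apply h; simp [Bz, PB, RB, tr_zero]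
  have hy : y ≠ 0 := by
    rintro rfl; apply h; simp [Bz, PB, RB, tr_zero]
  have hvy : v ≠ y := by
    rintro rfl; apply h
    have h1 : PB (v, v) = 0 := by simp only [PB]; linear_combination (v ^ 3) * two_eq_zero' (F := F)
    have h2 : RB (v, v) = 0 := by simp only [RB]; linear_combination (v ^ 5) * two_eq_zero' (F := F)
    simp [Bz, h1, h2, tr_zero]
  have h2 := two_eq_zero' (F := F)
  have h6 : ({(v, y), (y, v), (v, v + y), (v + y, v), (y, v + y), (v + y, y)} : Finset (F × F)).card = 6 := by
    have e1 : v + y ≠ v := by simpa using hy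
    have e2 : v + y ≠ y := by simpa using hv
    rw [Finset.card_insert_of_notMem, Finset.card_insert_of_notMem, Finset.card_insert_of_notMem,
      Finset.card_insert_of_notMem, Finset.card_insert_of_notMem, Finset.card_singleton]
    all_goals simp [hv, hy, hvy, hvy.symm, e1, e2, e1.symm, e2.symm]
  have hsub : ({(v, y), (y, v), (v, v + y), (v + y, v), (y, v + y), (v + y, y)} : Finset (F × F)) ⊆
      Finset.univ.filter (fun p : F × F => PB p = PB (v, y) ∧ RB p = RB (v, y)) := by
    intro p hp
    simp only [Finset.mem_insert, Finset.mem_singleton] at hp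
    rw [Finset.mem_filter]
    refine ⟨Finset.mem_univ _, ?_⟩
    simp only [PB, RB]
    rcases hp with rfl | rfl | rfl | rfl | rfl | rfl
    · exact ⟨rfl, rfl⟩
    · constructor <;> ring
    · constructor
      · linear_combination (v ^ 3 + v ^ 2 * y) * h2
      · linear_combination (v ^ 5 + 2 * v ^ 4 * y + 3 * v ^ 3 * y ^ 2 + 2 * v ^ 2 * y ^ 3) * h2
    · constructor
      · linear_combination (v ^ 3 + v ^ 2 * y) * h2
      · linear_combination (v ^ 5 + 2 * v ^ 4 * y + 3 * v ^ 3 * y ^ 2 + 2 * v ^ 2 * y ^ 3) * h2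
    · constructor
      · linear_combination (y ^ 3 + y ^ 2 * v) * h2
      · linear_combination (y ^ 5 + 2 * y ^ 4 * v + 3 * y ^ 3 * v ^ 2 + 2 * y ^ 2 * v ^ 3) * h2
    · constructor
      · linear_combination (y ^ 3 + y ^ 2 * v) * h2
      · linear_combination (y ^ 5 + 2 * y ^ 4 * v + 3 * y ^ 3 * v ^ 2 + 2 * y ^ 2 * v ^ 3) * h2
  have := Finset.card_le_card hsub
  rw [h6] at this
  unfold Npair
  exact_mod_cast this

/-- The key lower bound. -/
lemma sum_rho_diff (z0 : F × F) :
    6 * ((Fintype.card F : ℤ) ^ 2 - (Fintype.card F : ℤ) * rho z0) ≤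
      ∑ z : F × F, rho z * rho z - ∑ z : F × F, rho z * rho (z + z0) := by
  have h0 : ∑ z : F × F, rho z * rho z = ∑ p : F × F, Npair p := by
    have := sum_rho_rho (0 : F × F)
    simp only [add_zero] at this
    rw [this]
    refine Finset.sum_congr rfl fun p _ => ?_
    have : Bz (0 : F × F) p = 0 := by simp [Bz, tr_zero]
    rw [this, sgn_zero, one_mul]
  have hcard : ((Fintype.card F : ℤ) ^ 2 - (Fintype.card F : ℤ) * rho z0) =
      ∑ p : F × F, (1 - sgn (Bz z0 p)) := by
    rw [Finset.sum_sub_distrib, ← q_rho]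
    simp [sq]
  rw [h0, sum_rho_rho, hcard, ← Finset.sum_sub_distrib, Finset.mul_sum]
  refine Finset.sum_le_sum fun p _ => ?_
  rcases zmod2_cases (Bz z0 p) with h | h
  · rw [h, sgn_zero]; simp
  · have hN := Npair_ge (z0 := z0) (p' := p) (by rw [h]; decide)
    rw [h]
    have : sgn 1 = -1 := by decide
    rw [this]
    linarith

/-- number of forms with a given vector in the radical. -/
lemma card_K_le {v : F} (hv : v ≠ 0) :
    ((Finset.univ.filter (fun z : F × F => v ∈ radz z)).card : ℤ) ≤ 2 * (Fintype.card F : ℤ) := by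
  have hq := card_pos' (F := F)
  have key : (Fintype.card F : ℤ) * ((Finset.univ.filter (fun z : F × F => v ∈ radz z)).card : ℤ)
      ≤ (Fintype.card F : ℤ) * (2 * (Fintype.card F : ℤ)) := by
    calc (Fintype.card F : ℤ) * ((Finset.univ.filter (fun z : F × F => v ∈ radz z)).card : ℤ)
        = ∑ z : F × F, if v ∈ radz z then (Fintype.card F : ℤ) else 0 := by
          rw [← Finset.sum_filter]; simp [mul_comm]
      _ = ∑ z : F × F, ∑ y : F, sgn (Bz z (v, y)) := by
          refine Finset.sum_congr rfl fun z _ => ?_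
          have := sum_sgn_Bil (isQuad_fB 0 z) v
          simp only [Bil_fB] at this
          rw [this]; rfl
      _ = ∑ y : F, ∑ z : F × F, sgn (Bz z (v, y)) := Finset.sum_comm
      _ = ∑ y : F, if PB (v, y) = 0 ∧ RB (v, y) = 0 then (Fintype.card F : ℤ) ^ 2 else 0 := by
          refine Finset.sum_congr rfl fun y _ => ?_
          exact sum_sgn_pair _ _
      _ ≤ ∑ y : F, if y ∈ ({0, v} : Finset F) then (Fintype.card F : ℤ) ^ 2 else 0 := by
          refine Finset.sum_le_sum fun y _ => ?_
          by_cases hy : PB (v, y) = 0 ∧ RB (v, y) = 0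
          · have h1 : y ∈ ({0, v} : Finset F) := by
              have := hy.1
              rw [PB_factor] at this
              simp only [mul_eq_zero, add_eq_zero_iff_F] at this
              simp only [Finset.mem_insert, Finset.mem_singleton]
              rcases this with (h | h) | h
              · exact absurd h hv
              · exact Or.inl h
              · exact Or.inr h.symm
            simp [hy, h1]
          · rw [if_neg hy]
            split_ifs
            · positivity
            · exact le_refl 0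
      _ = (Fintype.card F : ℤ) * (2 * (Fintype.card F : ℤ)) := by
          rw [← Finset.sum_filter]
          have : (Finset.univ.filter (fun y : F => y ∈ ({0, v} : Finset F))).card = 2 := by
            rw [Finset.filter_mem_eq_inter, Finset.univ_inter, Finset.card_pair hv.symm]
          rw [Finset.sum_const, this]; ring
  exact le_of_mul_le_mul_left key hq

end finite

end Pool.Agent.H81
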