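import Mathlib
import Pool.Agent.H81.Bch

/-!
Any member of the dual of the triple-error-correcting BCH code with the weight pattern of a linear
function is a linear function.
-/

set_option autoImplicit false
set_option linter.unusedSectionVars false
set_option linter.unusedSimpArgs false

namespace Pool.Agent.H81

open Finset

variable {F : Type*} [Field F] [Fintype F] [DecidableEq F] [Algebra (ZMod 2) F]

lemma algebraMap_tr (x : F) : algebraMap (ZMod 2) F (tr x) =
    ∑ i ∈ Finset.range (Module.finrank (ZMod 2) F), x ^ (2 ^ i) := by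
  have := FiniteField.algebraMap_trace_eq_sum_pow (ZMod 2) F x
  simpa [tr] using this

lemma add_pow_two_pow (n : ℕ) (x y : F) : (x + y) ^ (2 ^ n) = x ^ (2 ^ n) + y ^ (2 ^ n) :=
  add_pow_char_pow x y 2 n

lemma sum_pow_two_pow {ι : Type*} (s : Finset ι) (f : ι → F) (n : ℕ) :
    (∑ i ∈ s, f i) ^ (2 ^ n) = ∑ i ∈ s, (f i) ^ (2 ^ n) :=
  sum_pow_char_pow 2 n s f

lemma tr_sq (x : F) : tr (x ^ 2) = tr x := by
  apply (algebraMap (ZMod 2) F).injective
  have h1 : algebraMap (ZMod 2) F (tr (x ^ 2)) = (algebraMap (ZMod 2) F (tr x)) ^ 2 := by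
    rw [algebraMap_tr, algebraMap_tr]
    have := sum_pow_two_pow (Finset.range (Module.finrank (ZMod 2) F)) (fun i => x ^ (2 ^ i)) 1
    rw [pow_one] at this
    rw [this]
    refine Finset.sum_congr rfl fun i _ => ?_
    rw [← pow_mul, ← pow_mul, mul_comm]
  rw [h1, ← map_pow]
  congr 1
  rcases zmod2_cases (tr x) with h | h <;> rw [h] <;> decide

lemma tr_pow_four (x : F) : tr (x ^ 4) = tr x := by
  have : x ^ 4 = (x ^ 2) ^ 2 := by ring
  rw [this, tr_sq, tr_sq]

lemma surj_pow_four (y : F) : ∃ x : F, x ^ 4 = y := by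
  have hinj : Function.Injective (fun x : F => x ^ 4) := by
    intro x y hxy
    have h1 : (x + y) ^ (2 ^ 2) = 0 := by
      rw [add_pow_two_pow]
      have : x ^ 4 = y ^ 4 := hxy
      norm_num
      rw [this]; exact add_self_F _
    have h2 := pow_eq_zero_iff (by norm_num) |>.1 h1
    exact add_eq_zero_iff_F.1 h2
  exact (Finite.injective_iff_surjective.1 hinj) y

/-- the radical polynomial. -/
lemma radz_poly {z : F × F} {v : F} (hv : v ∈ radz z) :
    z.2 ^ 4 * v ^ 16 + z.1 ^ 4 * v ^ 8 + z.1 ^ 2 * v ^ 2 + z.2 * v = 0 := by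
  apply tr_nondeg
  intro w
  obtain ⟨y, rfl⟩ := surj_pow_four w
  have h := (mem_radz.1 hv) y
  unfold Bz at h
  have e1 : tr (z.1 * (v ^ 2 * y)) = tr (z.1 ^ 4 * v ^ 8 * y ^ 4) := by
    rw [← tr_pow_four]; congr 1; ring
  have e2 : tr (z.1 * (v * y ^ 2)) = tr (z.1 ^ 2 * v ^ 2 * y ^ 4) := by
    rw [← tr_sq]; congr 1; ring
  have e3 : tr (z.2 * (v ^ 4 * y)) = tr (z.2 ^ 4 * v ^ 16 * y ^ 4) := by
    rw [← tr_pow_four]; congr 1; ring
  have e4 : tr (z.1 * PB (v, y) + z.2 * RB (v, y)) =
      tr (z.1 * (v ^ 2 * y)) + tr (z.1 * (v * y ^ 2)) + tr (z.2 * (v ^ 4 * y))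
        + tr (z.2 * (v * y ^ 4)) := by
    rw [← tr_add, ← tr_add, ← tr_add]; congr 1; simp only [PB, RB]; ring
  rw [e4, e1, e2, e3] at h
  rw [← tr_add, ← tr_add, ← tr_add] at h
  rw [← h]; congr 1; ring

open Polynomial in
lemma card_radz_le {z : F × F} (hz : z ≠ 0) : (radz z).card ≤ 16 := by
  set p : F[X] := C (z.2 ^ 4) * X ^ 16 + C (z.1 ^ 4) * X ^ 8 + C (z.1 ^ 2) * X ^ 2 + C z.2 * X with hp
  have hp0 : p ≠ 0 := by
    intro h0
    apply hz
    have c1 : p.coeff 8 = z.1 ^ 4 := by
      simp only [hp, coeff_add, coeff_C_mul, coeff_X_pow, coeff_X]; norm_num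
    have c2 : p.coeff 1 = z.2 := by
      simp only [hp, coeff_add, coeff_C_mul, coeff_X_pow, coeff_X]; norm_num
    rw [h0] at c1 c2
    simp only [coeff_zero] at c1 c2
    have h1 : z.1 = 0 := (pow_eq_zero_iff (by norm_num)).1 c1.symm
    exact Prod.ext h1 c2.symm
  have hsub : radz z ⊆ p.roots.toFinset := by
    intro v hv
    rw [Multiset.mem_toFinset, mem_roots hp0, IsRoot.def, hp]
    simp only [eval_add, eval_mul, eval_C, eval_pow, eval_X]
    exact radz_poly hv
  have hdeg : p.natDegree ≤ 16 := by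
    rw [hp]; compute_degree
  calc (radz z).card ≤ p.roots.toFinset.card := Finset.card_le_card hsub
    _ ≤ Multiset.card p.roots := Multiset.toFinset_card_le _
    _ ≤ p.natDegree := card_roots' p
    _ ≤ 16 := hdeg

lemma fB_zero (a : F) (z : F × F) : fB a z 0 = 0 := by simp [fB, tr_zero]

lemma fB_split (a : F) (z : F × F) (u : F) : fB a z u = fB 0 z u + tr (a * u) := by
  unfold fB; rw [← tr_add]; congr 1; ring

lemma fB_add (a a' : F) (z z' : F × F) (u : F) : fB a z u + fB a' z' u = fB (a + a') (z + z') u := by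
  unfold fB; rw [← tr_add]; congr 1; simp only [Prod.fst_add, Prod.snd_add]; ring

lemma zero_mem_radz (z : F × F) : (0 : F) ∈ radz z := by
  rw [mem_radz]; intro y; simp [Bz, PB, RB, tr_zero]

lemma S_sq_fB (a : F) (z : F × F) :
    S (fB a z) ^ 2 = (Fintype.card F : ℤ) * ∑ u ∈ radz z, sgn (fB a z u) := by
  rw [S_sq (isQuad_fB a z), rad_fB]

lemma S_sq_fB_of_ne {a : F} {z : F × F} (h : S (fB a z) ≠ 0) :
    S (fB a z) ^ 2 = (Fintype.card F : ℤ) * rho z := by
  rw [S_sq_of_ne add_self_F (isQuad_fB a z) h, rad_fB]; rfl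

/-- joint nonvanishing. -/
lemma exists_both_ne (a0 : F) (z z' : F × F) (hzz : ∀ u, u ∈ radz z → u ∈ radz z' → u = 0) :
    ∃ a : F, S (fB a z) ≠ 0 ∧ S (fB (a + a0) z') ≠ 0 := by
  have hq := card_pos' (F := F)
  have key : ∑ a : F, S (fB a z) ^ 2 * S (fB (a + a0) z') ^ 2 = (Fintype.card F : ℤ) ^ 3 := by
    calc ∑ a : F, S (fB a z) ^ 2 * S (fB (a + a0) z') ^ 2
        = ∑ a : F, ∑ u ∈ radz z, ∑ v ∈ radz z', (Fintype.card F : ℤ) ^ 2 *
            (sgn (fB 0 z u) * sgn (fB a0 z' v)) * sgn (tr (a * (u + v))) := by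
          refine Finset.sum_congr rfl fun a _ => ?_
          rw [S_sq_fB, S_sq_fB]
          rw [mul_mul_mul_comm, Finset.sum_mul_sum, Finset.mul_sum]
          refine Finset.sum_congr rfl fun u _ => ?_
          rw [Finset.mul_sum]
          refine Finset.sum_congr rfl fun v _ => ?_
          have e1 : fB (a + a0) z' v = fB a0 z' v + tr (a * v) := by
            unfold fB; rw [← tr_add]; congr 1; ring
          rw [fB_split a z u, e1, mul_add, tr_add, sgn_add, sgn_add, sgn_add]
          ring
      _ = ∑ u ∈ radz z, ∑ v ∈ radz z', (Fintype.card F : ℤ) ^ 2 *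
            (sgn (fB 0 z u) * sgn (fB a0 z' v)) * ∑ a : F, sgn (tr (a * (u + v))) := by
          rw [Finset.sum_comm]
          refine Finset.sum_congr rfl fun u _ => ?_
          rw [Finset.sum_comm]
          refine Finset.sum_congr rfl fun v _ => ?_
          rw [Finset.mul_sum]
      _ = ∑ u ∈ radz z, ∑ v ∈ radz z', if u = 0 ∧ v = 0 then (Fintype.card F : ℤ) ^ 3 else 0 := by
          refine Finset.sum_congr rfl fun u hu => ?_
          refine Finset.sum_congr rfl fun v hv => ?_
          rw [sum_sgn_tr]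
          by_cases huv : u + v = 0
          · have h1 : u = v := add_eq_zero_iff_F.1 huv
            have h2 : u = 0 := hzz u hu (h1 ▸ hv)
            have h3 : v = 0 := h1 ▸ h2
            subst h2; subst h3
            simp [fB_zero, sgn_zero]; ring
          · have : ¬ (u = 0 ∧ v = 0) := by
              rintro ⟨rfl, rfl⟩; apply huv; simp
            simp [huv, this]
      _ = (Fintype.card F : ℤ) ^ 3 := by
          rw [Finset.sum_eq_single 0]
          · rw [Finset.sum_eq_single 0]
            · simp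
            · intro v _ hv; simp [hv]
            · intro h; exact absurd (zero_mem_radz z') h
          · intro u _ hu; simp [hu]
          · intro h; exact absurd (zero_mem_radz z) h
  by_contra hcon
  push Not at hcon
  have hz : ∑ a : F, S (fB a z) ^ 2 * S (fB (a + a0) z') ^ 2 = 0 := by
    refine Finset.sum_eq_zero fun a _ => ?_
    by_cases h : S (fB a z) = 0
    · rw [h]; ring
    · rw [hcon a h]; ring
  rw [hz] at key
  have : (Fintype.card F : ℤ) ^ 3 ≠ 0 := pow_ne_zero _ hq.ne'
  exact this key.symm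

lemma exists_ne (z : F × F) : ∃ a : F, S (fB a z) ≠ 0 := by
  have hq := card_pos' (F := F)
  have key : ∑ a : F, S (fB a z) ^ 2 = (Fintype.card F : ℤ) ^ 2 := by
    calc ∑ a : F, S (fB a z) ^ 2
        = ∑ a : F, ∑ u ∈ radz z, (Fintype.card F : ℤ) * sgn (fB 0 z u) * sgn (tr (a * u)) := by
          refine Finset.sum_congr rfl fun a _ => ?_
          rw [S_sq_fB, Finset.mul_sum]
          refine Finset.sum_congr rfl fun u _ => ?_
          rw [fB_split a z u, sgn_add]; ring
      _ = ∑ u ∈ radz z, (Fintype.card F : ℤ) * sgn (fB 0 z u) * ∑ a : F, sgn (tr (a * u)) := by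
          rw [Finset.sum_comm]
          refine Finset.sum_congr rfl fun u _ => ?_
          rw [Finset.mul_sum]
      _ = (Fintype.card F : ℤ) ^ 2 := by
          simp only [sum_sgn_tr]
          rw [Finset.sum_eq_single 0]
          · simp [fB_zero, sgn_zero]; ring
          · intro u _ hu; simp [hu]
          · intro h; exact absurd (zero_mem_radz z) h
  by_contra hcon
  push Not at hcon
  have hz : ∑ a : F, S (fB a z) ^ 2 = 0 := by
    refine Finset.sum_eq_zero fun a _ => ?_
    rw [hcon a]; ring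
  rw [hz] at key
  have : (Fintype.card F : ℤ) ^ 2 ≠ 0 := pow_ne_zero _ hq.ne'
  exact this key.symm

/-- the radical has size 2 or 8. -/
lemma rho_cases {t : ℕ} (hcard : Fintype.card F = 2 ^ (2 * t + 1)) {z : F × F} (hz : z ≠ 0) :
    rho z = 2 ∨ rho z = 8 := by
  obtain ⟨a, ha⟩ := exists_ne z
  have h1 := S_sq_fB_of_ne ha
  have hle : rho z ≤ 16 := by unfold rho; exact_mod_cast card_radz_le hz
  have hpos : 0 < rho z := by
    unfold rho
    have : 0 < (radz z).card := Finset.card_pos.2 ⟨0, zero_mem_radz z⟩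
    exact_mod_cast this
  rw [hcard] at h1
  push_cast at h1
  have h2 : S (fB a z) ^ 2 = (2 ^ t) ^ 2 * (2 * rho z) := by rw [h1]; ring
  have h3 : ((2 : ℤ) ^ t) ^ 2 ∣ S (fB a z) ^ 2 := ⟨_, h2⟩
  have h4 : (2 : ℤ) ^ t ∣ S (fB a z) := (Int.pow_dvd_pow_iff (by norm_num)).1 h3
  obtain ⟨k, hk⟩ := h4
  rw [hk, mul_pow] at h2
  have h5 : k ^ 2 = 2 * rho z := mul_left_cancel₀ (by positivity) h2
  have h6 : k ^ 2 ≤ 32 := by linarith
  have hk1 : k ≤ 5 := by nlinarith
  have hk2 : -5 ≤ k := by nlinarith
  have hk5 : k = -5 ∨ k = -4 ∨ k = -3 ∨ k = -2 ∨ k = -1 ∨ k = 0 ∨ k = 1 ∨ k = 2 ∨ k = 3 ∨ k = 4 ∨ k = 5 := by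
    omega
  clear h2 h3 hk hk1 hk2 h6
  rcases hk5 with h | h | h | h | h | h | h | h | h | h | h <;> rw [h] at h5 <;> norm_num at h5 <;> omega

lemma rho_zero : rho (0 : F × F) = (Fintype.card F : ℤ) := by
  have : radz (0 : F × F) = Finset.univ := by
    ext v; simp [mem_radz, Bz, tr_zero]
  unfold rho; rw [this]; simp

/-- The main lemma on the BCH side. -/
theorem eq_zero_of_pattern {t : ℕ} (ht : 3 ≤ t) (hcard : Fintype.card F = 2 ^ (2 * t + 1))
    (a0 : F) (z0 : F × F)
    (hP : ∀ (a : F) (z : F × F), S (fB a z) ≠ 0 → S (fun x => fB a z x + fB a0 z0 x) ≠ 0 →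
      S (fB a z) ^ 2 = S (fun x => fB a z x + fB a0 z0 x) ^ 2) : z0 = 0 := by
  by_contra hz0
  set q : ℤ := (Fintype.card F : ℤ) with hqdef
  have hq : 128 ≤ q := by
    rw [hqdef, hcard]
    have : 2 ^ 7 ≤ 2 ^ (2 * t + 1) := Nat.pow_le_pow_right (by norm_num) (by omega)
    exact_mod_cast this
  have hcases := rho_cases hcard hz0
  -- the exceptional set
  set Exc : Finset (F × F) := Finset.univ.filter (fun z => ∃ v, v ≠ 0 ∧ v ∈ radz z0 ∧ v ∈ radz z) with hExc
  have hExc_card : (Exc.card : ℤ) ≤ (rho z0 - 1) * (2 * q) := by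
    have hsub : Exc ⊆ ((radz z0).erase 0).biUnion
        (fun v => Finset.univ.filter (fun z : F × F => v ∈ radz z)) := by
      intro z hz
      rw [hExc, Finset.mem_filter] at hz
      obtain ⟨_, v, hv0, hv1, hv2⟩ := hz
      rw [Finset.mem_biUnion]
      exact ⟨v, Finset.mem_erase.2 ⟨hv0, hv1⟩, by simp [hv2]⟩
    have h1 : (Exc.card : ℤ) ≤ ∑ v ∈ (radz z0).erase 0,
        ((Finset.univ.filter (fun z : F × F => v ∈ radz z)).card : ℤ) := by
      have := (Finset.card_le_card hsub).trans Finset.card_biUnion_le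
      exact_mod_cast this
    have h2 : ∑ v ∈ (radz z0).erase 0,
        ((Finset.univ.filter (fun z : F × F => v ∈ radz z)).card : ℤ) ≤
        ∑ v ∈ (radz z0).erase 0, 2 * q := by
      refine Finset.sum_le_sum fun v hv => ?_
      exact card_K_le (Finset.mem_erase.1 hv).1
    rw [Finset.sum_const, Finset.card_erase_of_mem (zero_mem_radz z0)] at h2
    have h3 : (((radz z0).card - 1 : ℕ) : ℤ) = rho z0 - 1 := by
      have : 0 < (radz z0).card := Finset.card_pos.2 ⟨0, zero_mem_radz z0⟩
      unfold rho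
      push_cast [Nat.cast_sub (Nat.succ_le_of_lt this)]
      ring
    rw [nsmul_eq_mul, h3] at h2
    linarith
  -- outside the exceptional set the radical sizes agree
  have hagree : ∀ z : F × F, z ∉ Exc → rho z = rho (z + z0) := by
    intro z hz
    have hint : ∀ u, u ∈ radz z → u ∈ radz (z + z0) → u = 0 := by
      intro u hu hu'
      by_contra hu0
      apply hz
      rw [hExc, Finset.mem_filter]
      refine ⟨Finset.mem_univ _, u, hu0, ?_, hu⟩
      rw [mem_radz] at hu hu' ⊢
      intro y
      have := hu' y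
      rw [Bz_add_z, hu y, zero_add] at this
      exact this
    obtain ⟨a, ha1, ha2⟩ := exists_both_ne a0 z (z + z0) hint
    have e : (fun x => fB a z x + fB a0 z0 x) = fB (a + a0) (z + z0) := by
      funext x; exact fB_add a a0 z z0 x
    have := hP a z ha1 (by rw [e]; exact ha2)
    rw [e, S_sq_fB_of_ne ha1, S_sq_fB_of_ne ha2] at this
    exact mul_left_cancel₀ (by positivity : (q : ℤ) ≠ 0) this
  -- upper bound for the quadratic variation
  have hupper : ∑ z : F × F, (rho z - rho (z + z0)) ^ 2 ≤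
      36 * (Exc.card : ℤ) + 2 * (q - rho z0) ^ 2 := by
    have hterm : ∀ z : F × F, (rho z - rho (z + z0)) ^ 2 ≤
        (if z ∈ Exc then 36 else 0) + (if z = 0 then (q - rho z0) ^ 2 else 0)
          + (if z = z0 then (q - rho z0) ^ 2 else 0) := by
      intro z
      by_cases h0 : z = 0
      · subst h0
        rw [zero_add, rho_zero]
        have : (0 : ℤ) ≤ (if (0 : F × F) ∈ Exc then 36 else 0) := by split_ifs <;> norm_num
        have h' : (0 : ℤ) ≤ (if (0 : F × F) = z0 then (q - rho z0) ^ 2 else 0) := by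
          split_ifs <;> positivity
        simp only [if_true]
        linarith
      · by_cases h1 : z = z0
        · subst h1
          have hzz : z + z = 0 := Prod.ext (add_self_F _) (add_self_F _)
          rw [hzz, rho_zero]
          have : (0 : ℤ) ≤ (if z ∈ Exc then 36 else 0) := by split_ifs <;> norm_num
          simp only [h0, if_false, if_true]
          nlinarith
        · simp only [h0, h1, if_false, add_zero]
          by_cases h2 : z ∈ Exc
          · simp only [h2, if_true]
            have hzz : z + z0 ≠ 0 := by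
              intro h
              apply h1
              have e1 := congrArg Prod.fst h
              have e2 := congrArg Prod.snd h
              exact Prod.ext (add_eq_zero_iff_F.1 e1) (add_eq_zero_iff_F.1 e2)
            rcases rho_cases hcard h0 with h | h <;> rcases rho_cases hcard hzz with h' | h' <;>
              rw [h, h'] <;> norm_num
          · simp only [h2, if_false]
            rw [hagree z h2]; simp
    calc ∑ z : F × F, (rho z - rho (z + z0)) ^ 2
        ≤ ∑ z : F × F, ((if z ∈ Exc then 36 else 0) + (if z = 0 then (q - rho z0) ^ 2 else 0)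
          + (if z = z0 then (q - rho z0) ^ 2 else 0)) := Finset.sum_le_sum fun z _ => hterm z
      _ = 36 * (Exc.card : ℤ) + 2 * (q - rho z0) ^ 2 := by
          rw [Finset.sum_add_distrib, Finset.sum_add_distrib]
          rw [← Finset.sum_filter]
          simp
          ring
  have hvar : ∑ z : F × F, (rho z - rho (z + z0)) ^ 2 =
      2 * (∑ z : F × F, rho z * rho z - ∑ z : F × F, rho z * rho (z + z0)) := by
    have hshift : ∑ z : F × F, rho (z + z0) * rho (z + z0) = ∑ z : F × F, rho z * rho z :=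
      Equiv.sum_comp (Equiv.addRight z0) (fun z => rho z * rho z)
    have : ∑ z : F × F, (rho z - rho (z + z0)) ^ 2 =
        ∑ z : F × F, rho z * rho z + ∑ z : F × F, rho (z + z0) * rho (z + z0)
          - 2 * ∑ z : F × F, rho z * rho (z + z0) := by
      rw [Finset.mul_sum, ← Finset.sum_add_distrib, ← Finset.sum_sub_distrib]
      refine Finset.sum_congr rfl fun z _ => ?_
      ring
    rw [this, hshift]; ring
  have hlower := sum_rho_diff z0
  rw [← hqdef] at hlower
  rcases hcases with h | h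
  · rw [h] at hlower hupper hExc_card
    nlinarith
  · rw [h] at hlower hupper hExc_card
    nlinarith

end Pool.Agent.H81
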