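import Mathlib
import Pool.Agent.H81.Bch2

/-!
No additive bijection carries the functions `Tr (b x^3)` into the functions
`Tr (a x + b x^(1+2^(t-1)) + c x^(1+2^t))`.
-/

set_option autoImplicit false
set_option linter.unusedSectionVars false
set_option linter.unusedSimpArgs false

namespace Pool.Agent.H81

open Finset

/-! ### arithmetic -/

lemma arith_aux {m i j : ℕ} (hm : 4 ≤ m) (hi : i < m) (hj : j ≤ m)
    (h : ((2 : ℤ) ^ m - 1) ∣ 2 ^ i + 2 ^ j - 6) : (i = 1 ∧ j = 2) ∨ (i = 2 ∧ j = 1) := by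
  obtain ⟨c, hc⟩ := h
  have hP : (16 : ℤ) ≤ 2 ^ m := by
    calc (16 : ℤ) = 2 ^ 4 := by norm_num
      _ ≤ 2 ^ m := pow_le_pow_right₀ (by norm_num) hm
  have hX : 2 * (2 : ℤ) ^ i ≤ 2 ^ m := by
    rw [← pow_succ']; exact pow_le_pow_right₀ (by norm_num) hi
  have hY : (2 : ℤ) ^ j ≤ 2 ^ m := pow_le_pow_right₀ (by norm_num) hj
  have hX1 : (1 : ℤ) ≤ 2 ^ i := one_le_pow₀ (by norm_num)
  have hY1 : (1 : ℤ) ≤ 2 ^ j := one_le_pow₀ (by norm_num)
  have hc0 : 0 ≤ c := by nlinarith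
  have hc1 : c ≤ 1 := by nlinarith
  have hc2 : c = 0 ∨ c = 1 := by omega
  rcases hc2 with rfl | rfl
  · have h6 : (2 : ℤ) ^ i + 2 ^ j = 6 := by linarith
    have hi3 : i < 3 := by
      by_contra hcon
      have : (2 : ℤ) ^ 3 ≤ 2 ^ i := pow_le_pow_right₀ (by norm_num) (by omega)
      norm_num at this; linarith
    have hj3 : j < 3 := by
      by_contra hcon
      have : (2 : ℤ) ^ 3 ≤ 2 ^ j := pow_le_pow_right₀ (by norm_num) (by omega)
      norm_num at this; linarith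
    interval_cases i <;> interval_cases j <;> simp_all
  · exfalso
    have h6 : (2 : ℤ) ^ i + 2 ^ j = 2 ^ m + 5 := by linarith
    rcases Nat.eq_zero_or_pos i with h0 | h0
    · subst h0; norm_num at h6; linarith
    rcases Nat.eq_zero_or_pos j with h1 | h1
    · subst h1; norm_num at h6; linarith
    obtain ⟨i', rfl⟩ := Nat.exists_eq_add_of_lt h0
    obtain ⟨j', rfl⟩ := Nat.exists_eq_add_of_lt h1
    obtain ⟨m', rfl⟩ := Nat.exists_eq_add_of_lt (show 0 < m by omega)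
    simp only [zero_add, pow_succ] at h6
    omega

/-- reduction of the divisibility used below. -/
lemma dvd_conv {m e : ℕ} (hm : 4 ≤ m) (h : (2 ^ m - 1) ∣ e + 6 * (2 ^ m - 2)) :
    ((2 : ℤ) ^ m - 1) ∣ (e : ℤ) - 6 := by
  have h16 : 2 ^ 4 ≤ 2 ^ m := Nat.pow_le_pow_right (by norm_num) hm
  have h1 : (((2 ^ m - 1 : ℕ)) : ℤ) = (2 : ℤ) ^ m - 1 := by
    rw [Nat.cast_sub (by omega)]; push_cast; ring
  have h2 : (((2 ^ m - 2 : ℕ)) : ℤ) = (2 : ℤ) ^ m - 2 := by
    rw [Nat.cast_sub (by omega)]; push_cast; ring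
  have h3 := Int.natCast_dvd_natCast.2 h
  rw [h1] at h3
  push_cast [h2] at h3
  have h4 : (e : ℤ) - 6 = ((e : ℤ) + 6 * ((2 : ℤ) ^ m - 2)) - 6 * ((2 : ℤ) ^ m - 1) := by ring
  rw [h4]
  exact dvd_sub h3 (Dvd.intro_left _ rfl)

lemma arith_pow {m i j : ℕ} (hm : 4 ≤ m) (hi : i < m) (hj : j < m + m)
    (h : (2 ^ m - 1) ∣ (2 ^ i + 2 ^ j) + 6 * (2 ^ m - 2)) :
    (i = 1 ∧ j = 2) ∨ (i = 2 ∧ j = 1) ∨ (i = 1 ∧ j = m + 2) ∨ (i = 2 ∧ j = m + 1) := by
  have h1 := dvd_conv hm h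
  push_cast at h1
  by_cases hjm : j < m
  · rcases arith_aux hm hi hjm.le h1 with h | h
    · exact Or.inl h
    · exact Or.inr (Or.inl h)
  · have h2 : ((2 : ℤ) ^ m - 1) ∣ 2 ^ i + 2 ^ (j - m) - 6 := by
      have e : (2 : ℤ) ^ j = 2 ^ (j - m) * 2 ^ m := by rw [← pow_add]; congr 1; omega
      have e2 : (2 : ℤ) ^ i + 2 ^ (j - m) - 6 = (2 ^ i + 2 ^ j - 6) - 2 ^ (j - m) * (2 ^ m - 1) := by
        rw [e]; ring
      rw [e2]
      exact dvd_sub h1 (Dvd.intro_left _ rfl)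
    rcases arith_aux hm hi (by omega) h2 with h | h <;> omega

lemma arith_single {m k : ℕ} (hm : 4 ≤ m) (hk : k < m) :
    ¬ (2 ^ m - 1) ∣ 2 ^ k + 6 * (2 ^ m - 2) := by
  intro h
  have h1 := dvd_conv hm h
  push_cast at h1
  obtain ⟨c, hc⟩ := h1
  have hP : (16 : ℤ) ≤ 2 ^ m := by
    calc (16 : ℤ) = 2 ^ 4 := by norm_num
      _ ≤ 2 ^ m := pow_le_pow_right₀ (by norm_num) hm
  have hX : 2 * (2 : ℤ) ^ k ≤ 2 ^ m := by
    rw [← pow_succ']; exact pow_le_pow_right₀ (by norm_num) hk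
  have hX1 : (1 : ℤ) ≤ 2 ^ k := one_le_pow₀ (by norm_num)
  have hc0 : 0 ≤ c := by nlinarith
  have hc1 : c ≤ 0 := by nlinarith
  have hc2 : c = 0 := by omega
  subst hc2
  have h6 : (2 : ℤ) ^ k = 6 := by linarith
  have hk3 : k < 3 := by
    by_contra hcon
    have : (2 : ℤ) ^ 3 ≤ 2 ^ k := pow_le_pow_right₀ (by norm_num) (by omega)
    norm_num at this; linarith
  interval_cases k <;> norm_num at h6

lemma arith_one {m k : ℕ} (hm : 4 ≤ m) (hk : k < m) (h : (2 ^ m - 1) ∣ 2 ^ k + (2 ^ m - 2)) :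
    k = 0 := by
  have h16 : 2 ^ 4 ≤ 2 ^ m := Nat.pow_le_pow_right (by norm_num) hm
  have hX : 2 * 2 ^ k ≤ 2 ^ m := by
    rw [← pow_succ']; exact Nat.pow_le_pow_right (by norm_num) hk
  have hX1 : 1 ≤ 2 ^ k := Nat.one_le_pow _ _ (by norm_num)
  obtain ⟨c, hc⟩ := h
  have hc1 : c = 1 := by
    have h1 : 0 < c := by
      rcases Nat.eq_zero_or_pos c with h | h
      · subst h; omega
      · exact h
    have h2 : c < 2 := by
      by_contra hcon
      have : (2 ^ m - 1) * 2 ≤ (2 ^ m - 1) * c := Nat.mul_le_mul_left _ (by omega)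
      omega
    omega
  subst hc1
  have : 2 ^ k = 1 := by omega
  by_contra hk0
  have : 2 ^ 1 ≤ 2 ^ k := Nat.pow_le_pow_right (by norm_num) (by omega)
  omega

/-! ### coefficient extraction -/

variable {F : Type*} [Field F] [Fintype F] [DecidableEq F] [Algebra (ZMod 2) F]

/-- the coefficient at exponent `6` of a function. -/
noncomputable def Phi (g : F → F) : F :=
  ∑ x : Fˣ, g (x : F) * (x : F) ^ (6 * (Fintype.card F - 2))

lemma Phi_pow (j : ℕ) : Phi (fun x : F => x ^ j) =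
    if (Fintype.card F - 1) ∣ j + 6 * (Fintype.card F - 2) then 1 else 0 := by
  unfold Phi
  have : ∀ x : Fˣ, (x : F) ^ j * (x : F) ^ (6 * (Fintype.card F - 2)) =
      (x : F) ^ (j + 6 * (Fintype.card F - 2)) := fun x => by rw [pow_add]
  rw [Finset.sum_congr rfl fun x _ => this x, FiniteField.sum_pow_units]
  split_ifs
  · have := two_eq_zero' (F := F); linear_combination (-1 : F) * this
  · rfl

lemma Phi_add (g h : F → F) : Phi (fun x => g x + h x) = Phi g + Phi h := by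
  unfold Phi; rw [← Finset.sum_add_distrib]; refine Finset.sum_congr rfl fun x _ => ?_; ring

lemma Phi_mul (c : F) (g : F → F) : Phi (fun x => c * g x) = c * Phi g := by
  unfold Phi; rw [Finset.mul_sum]; refine Finset.sum_congr rfl fun x _ => ?_; ring

lemma Phi_sum {ι : Type*} (s : Finset ι) (g : ι → F → F) :
    Phi (fun x => ∑ i ∈ s, g i x) = ∑ i ∈ s, Phi (g i) := by
  unfold Phi
  simp only [Finset.sum_mul]
  rw [Finset.sum_comm]

lemma finrank_eq {m : ℕ} (hcard : Fintype.card F = 2 ^ m) : Module.finrank (ZMod 2) F = m := by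
  have h := Module.card_eq_pow_finrank (K := ZMod 2) (V := F)
  rw [hcard, ZMod.card] at h
  exact (Nat.pow_right_injective (le_refl 2) h).symm

/-- The hypothesis on the map `L`. -/
def Carries (t : ℕ) (L : F → F) : Prop :=
  ∀ b : F, ∃ a' b' c' : F, ∀ x : F,
    tr (b * L x ^ 3) = tr (a' * x + b' * x ^ (1 + 2 ^ (t - 1)) + c' * x ^ (1 + 2 ^ t))

lemma Phi_dual {t : ℕ} (ht : 3 ≤ t) (hcard : Fintype.card F = 2 ^ (2 * t + 1)) (a' b' c' : F) :
    Phi (fun x : F => algebraMap (ZMod 2) F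
      (tr (a' * x + b' * x ^ (1 + 2 ^ (t - 1)) + c' * x ^ (1 + 2 ^ t)))) = 0 := by
  have hexp : ∀ x : F, algebraMap (ZMod 2) F
      (tr (a' * x + b' * x ^ (1 + 2 ^ (t - 1)) + c' * x ^ (1 + 2 ^ t))) =
      ∑ k ∈ Finset.range (2 * t + 1), (a' ^ 2 ^ k * x ^ 2 ^ k + b' ^ 2 ^ k * x ^ (2 ^ k + 2 ^ (k + t - 1))
        + c' ^ 2 ^ k * x ^ (2 ^ k + 2 ^ (k + t))) := by
    intro x
    rw [algebraMap_tr, finrank_eq hcard]
    refine Finset.sum_congr rfl fun k _ => ?_
    rw [add_pow_two_pow, add_pow_two_pow, mul_pow, mul_pow, mul_pow, ← pow_mul, ← pow_mul]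
    have e1 : (1 + 2 ^ (t - 1)) * 2 ^ k = 2 ^ k + 2 ^ (k + t - 1) := by
      rw [show k + t - 1 = (t - 1) + k by omega, pow_add]; ring
    have e2 : (1 + 2 ^ t) * 2 ^ k = 2 ^ k + 2 ^ (k + t) := by
      rw [show k + t = t + k by omega, pow_add]; ring
    rw [e1, e2]
  have : (fun x : F => algebraMap (ZMod 2) F
      (tr (a' * x + b' * x ^ (1 + 2 ^ (t - 1)) + c' * x ^ (1 + 2 ^ t)))) =
      fun x => ∑ k ∈ Finset.range (2 * t + 1), (a' ^ 2 ^ k * x ^ 2 ^ k
        + b' ^ 2 ^ k * x ^ (2 ^ k + 2 ^ (k + t - 1)) + c' ^ 2 ^ k * x ^ (2 ^ k + 2 ^ (k + t))) :=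
    funext hexp
  rw [this, Phi_sum]
  refine Finset.sum_eq_zero fun k hk => ?_
  rw [Finset.mem_range] at hk
  rw [Phi_add, Phi_add, Phi_mul, Phi_mul, Phi_mul, Phi_pow, Phi_pow, Phi_pow, hcard]
  have n1 := arith_single (m := 2 * t + 1) (k := k) (by omega) hk
  have n2 : ¬ (2 ^ (2 * t + 1) - 1) ∣ 2 ^ k + 2 ^ (k + t - 1) + 6 * (2 ^ (2 * t + 1) - 2) := by
    intro h
    have := arith_pow (m := 2 * t + 1) (by omega) hk (by omega) h
    omega
  have n3 : ¬ (2 ^ (2 * t + 1) - 1) ∣ 2 ^ k + 2 ^ (k + t) + 6 * (2 ^ (2 * t + 1) - 2) := by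
    intro h
    have := arith_pow (m := 2 * t + 1) (by omega) hk (by omega) h
    omega
  rw [if_neg n1, if_neg n2, if_neg n3]; ring

/-- linearised polynomial with coefficient sequence `l`. -/
def linPoly (m : ℕ) (l : ℕ → F) (x : F) : F := ∑ i ∈ Finset.range m, l i * x ^ (2 ^ i)

lemma coeff_rel {t : ℕ} (ht : 3 ≤ t) (hcard : Fintype.card F = 2 ^ (2 * t + 1)) (l : ℕ → F)
    (hL : Carries t (linPoly (2 * t + 1) l)) : l 1 ^ 3 = l 2 * l 0 ^ 2 := by
  set m := 2 * t + 1 with hm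
  set L := linPoly m l with hLdef
  -- the relations in b
  have hrel : ∀ b : F, ∑ k ∈ Finset.range m, b ^ (2 ^ k) * Phi (fun x => (L x ^ 3) ^ (2 ^ k)) = 0 := by
    intro b
    obtain ⟨a', b', c', h⟩ := hL b
    have h0 := Phi_dual ht hcard a' b' c'
    have h1 : (fun x : F => algebraMap (ZMod 2) F
      (tr (a' * x + b' * x ^ (1 + 2 ^ (t - 1)) + c' * x ^ (1 + 2 ^ t)))) =
        fun x => ∑ k ∈ Finset.range m, b ^ (2 ^ k) * (L x ^ 3) ^ (2 ^ k) := by
      funext x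
      rw [← h x, algebraMap_tr, finrank_eq hcard]
      refine Finset.sum_congr rfl fun k _ => ?_
      rw [mul_pow]
    rw [h1, Phi_sum] at h0
    rw [← h0]
    refine Finset.sum_congr rfl fun k _ => ?_
    rw [Phi_mul]
  -- extract k = 0
  have hd0 : Phi (fun x => (L x ^ 3) ^ (2 ^ 0)) = 0 := by
    have h1 : ∑ b : Fˣ, (∑ k ∈ Finset.range m, (b : F) ^ (2 ^ k) * Phi (fun x => (L x ^ 3) ^ (2 ^ k)))
        * (b : F) ^ (Fintype.card F - 2) = 0 := by
      refine Finset.sum_eq_zero fun b _ => ?_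
      rw [hrel b, zero_mul]
    have h2 : ∑ b : Fˣ, (∑ k ∈ Finset.range m, (b : F) ^ (2 ^ k) * Phi (fun x => (L x ^ 3) ^ (2 ^ k)))
        * (b : F) ^ (Fintype.card F - 2) = ∑ k ∈ Finset.range m, Phi (fun x => (L x ^ 3) ^ (2 ^ k)) *
          ∑ b : Fˣ, (b : F) ^ (2 ^ k + (Fintype.card F - 2)) := by
      simp only [Finset.sum_mul, Finset.mul_sum]
      rw [Finset.sum_comm]
      refine Finset.sum_congr rfl fun k _ => ?_
      refine Finset.sum_congr rfl fun b _ => ?_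
      rw [pow_add]; ring
    rw [h2] at h1
    simp only [FiniteField.sum_pow_units] at h1
    rw [Finset.sum_eq_single 0] at h1
    · have hdvd : Fintype.card F - 1 ∣ 2 ^ 0 + (Fintype.card F - 2) := by
        have : 2 ^ 4 ≤ Fintype.card F := by
          rw [hcard]; exact Nat.pow_le_pow_right (by norm_num) (by omega)
        have e : 2 ^ 0 + (Fintype.card F - 2) = Fintype.card F - 1 := by omega
        rw [e]
      rw [if_pos hdvd] at h1
      have : (-1 : F) ≠ 0 := by simp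
      exact (mul_eq_zero.1 h1).resolve_right this
    · intro k hk hk0
      rw [Finset.mem_range] at hk
      have : ¬ Fintype.card F - 1 ∣ 2 ^ k + (Fintype.card F - 2) := by
        rw [hcard]; intro h; exact hk0 (arith_one (by omega) hk h)
      rw [if_neg this, mul_zero]
    · intro h; exact absurd (Finset.mem_range.2 (by omega)) h
  -- expand
  have hexp : (fun x => (L x ^ 3) ^ (2 ^ 0)) = fun x : F => ∑ i ∈ Finset.range m, ∑ j ∈ Finset.range m,
      (l i * l j ^ 2) * x ^ (2 ^ i + 2 ^ (j + 1)) := by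
    funext x
    have h1 : L x ^ 2 = ∑ j ∈ Finset.range m, l j ^ 2 * x ^ (2 ^ (j + 1)) := by
      have := sum_pow_two_pow (Finset.range m) (fun i => l i * x ^ (2 ^ i)) 1
      rw [pow_one] at this
      rw [hLdef, linPoly, this]
      refine Finset.sum_congr rfl fun j _ => ?_
      rw [mul_pow, ← pow_mul, ← pow_succ]
    rw [pow_zero, pow_one, pow_succ, h1, hLdef, linPoly, mul_comm, Finset.sum_mul_sum]
    refine Finset.sum_congr rfl fun i _ => ?_
    refine Finset.sum_congr rfl fun j _ => ?_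
    rw [pow_add]; ring
  rw [hexp, Phi_sum] at hd0
  have h3 : ∀ i ∈ Finset.range m, Phi (fun x : F => ∑ j ∈ Finset.range m,
      (l i * l j ^ 2) * x ^ (2 ^ i + 2 ^ (j + 1))) =
      ∑ j ∈ Finset.range m, (if (i = 1 ∧ j = 1) ∨ (i = 2 ∧ j = 0) then l i * l j ^ 2 else 0) := by
    intro i hi
    rw [Finset.mem_range] at hi
    rw [Phi_sum]
    refine Finset.sum_congr rfl fun j hj => ?_
    rw [Finset.mem_range] at hj
    rw [Phi_mul, Phi_pow, hcard]
    by_cases hc : (i = 1 ∧ j = 1) ∨ (i = 2 ∧ j = 0)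
    · rw [if_pos hc, if_pos, mul_one]
      rcases hc with ⟨rfl, rfl⟩ | ⟨rfl, rfl⟩
      · refine ⟨6, ?_⟩
        have : 2 ^ 4 ≤ 2 ^ m := Nat.pow_le_pow_right (by norm_num) (by omega)
        omega
      · refine ⟨6, ?_⟩
        have : 2 ^ 4 ≤ 2 ^ m := Nat.pow_le_pow_right (by norm_num) (by omega)
        omega
    · rw [if_neg hc, if_neg, mul_zero]
      intro h
      have := arith_pow (m := m) (by omega) hi (by omega) h
      omega
  rw [Finset.sum_congr rfl h3] at hd0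
  have h4 : ∑ i ∈ Finset.range m, ∑ j ∈ Finset.range m,
      (if (i = 1 ∧ j = 1) ∨ (i = 2 ∧ j = 0) then l i * l j ^ 2 else 0) = l 1 * l 1 ^ 2 + l 2 * l 0 ^ 2 := by
    have h5 : ∀ i ∈ Finset.range m, ∑ j ∈ Finset.range m,
        (if (i = 1 ∧ j = 1) ∨ (i = 2 ∧ j = 0) then l i * l j ^ 2 else 0) =
        (if i = 1 then l 1 * l 1 ^ 2 else 0) + (if i = 2 then l 2 * l 0 ^ 2 else 0) := by
      intro i _
      by_cases h1 : i = 1
      · subst h1
        rw [Finset.sum_eq_single 1]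
        · simp
        · intro j _ hj; simp [hj]
        · intro h; exact absurd (Finset.mem_range.2 (by omega)) h
      · by_cases h2 : i = 2
        · subst h2
          rw [Finset.sum_eq_single 0]
          · simp
          · intro j _ hj; simp [hj]
          · intro h; exact absurd (Finset.mem_range.2 (by omega)) h
        · simp [h1, h2]
    rw [Finset.sum_congr rfl h5, Finset.sum_add_distrib, Finset.sum_ite_eq', Finset.sum_ite_eq',
      if_pos (Finset.mem_range.2 (by omega)), if_pos (Finset.mem_range.2 (by omega))]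
  rw [h4] at hd0
  have := add_eq_zero_iff_F.1 hd0
  rw [← this]; ring

end Pool.Agent.H81
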