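import Mathlib
import Pool.Agent.H81.Lin

/-!
No additive injection `L` carries the functions `Tr (b x^3)` into the functions
`Tr (a x + b x^(1+2^(t-1)) + c x^(1+2^t))`, for `t ≥ 3`.
-/

set_option autoImplicit false
set_option linter.unusedSectionVars false
set_option linter.unusedSimpArgs false

namespace Pool.Agent.H81

open Finset

variable {F : Type*} [Field F] [Fintype F] [DecidableEq F] [Algebra (ZMod 2) F]

lemma tr_pow_two_pow (n : ℕ) (x : F) : tr (x ^ (2 ^ n)) = tr x := by
  induction n with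
  | zero => simp
  | succ n ih => rw [pow_succ, pow_mul, tr_sq, ih]

lemma surj_pow_two_pow (n : ℕ) (y : F) : ∃ x : F, x ^ (2 ^ n) = y := by
  have hinj : Function.Injective (fun x : F => x ^ (2 ^ n)) := by
    intro x y hxy
    have h1 : (x + y) ^ (2 ^ n) = 0 := by
      rw [add_pow_two_pow]
      have : x ^ (2 ^ n) = y ^ (2 ^ n) := hxy
      rw [this]; exact add_self_F _
    have h2 := pow_eq_zero_iff (by positivity) |>.1 h1
    exact add_eq_zero_iff_F.1 h2
  exact (Finite.injective_iff_surjective.1 hinj) y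

lemma exists_linPoly {m : ℕ} (hcard : Fintype.card F = 2 ^ m) (L : F → F)
    (hL : ∀ x y, L (x + y) = L x + L y) :
    ∃ l : ℕ → F, (∀ k, l (k + m) = l k) ∧ ∀ x, L x = linPoly m l x := by
  classical
  let Ll : F →ₗ[ZMod 2] F := (AddMonoidHom.mk' L hL).toZModLinearMap 2
  have hLl : ∀ x, Ll x = L x := fun x => rfl
  let b := Module.finBasis (ZMod 2) F
  let b' := LinearMap.BilinForm.dualBasis (Algebra.traceForm (ZMod 2) F)
    (traceForm_nondegenerate (ZMod 2) F) b
  refine ⟨fun k => ∑ i, (b i) ^ (2 ^ k) * L (b' i), ?_, ?_⟩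
  · intro k
    refine Finset.sum_congr rfl fun i _ => ?_
    congr 1
    rw [pow_add, mul_comm, pow_mul, ← hcard, FiniteField.pow_card]
  · intro x
    have h1 : x = ∑ i, (tr (x * b i)) • b' i := by
      conv_lhs => rw [← b'.sum_repr x]
      refine Finset.sum_congr rfl fun i _ => ?_
      congr 1
      exact LinearMap.BilinForm.dualBasis_repr_apply (traceForm_nondegenerate (ZMod 2) F) b x i
    have h2 : L x = ∑ i, algebraMap (ZMod 2) F (tr (x * b i)) * L (b' i) := by
      rw [← hLl]
      conv_lhs => rw [h1]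
      rw [map_sum]
      refine Finset.sum_congr rfl fun i _ => ?_
      rw [map_smul, Algebra.smul_def]; rfl
    rw [h2, linPoly]
    simp only [algebraMap_tr, finrank_eq hcard, Finset.sum_mul]
    rw [Finset.sum_comm]
    refine Finset.sum_congr rfl fun k _ => ?_
    refine Finset.sum_congr rfl fun i _ => ?_
    rw [mul_pow]; ring

lemma linPoly_shift {m : ℕ} (hcard : Fintype.card F = 2 ^ m) {l : ℕ → F}
    (hper : ∀ k, l (k + m) = l k) (n : ℕ) (x : F) :
    linPoly m (fun i => l (n + i)) (x ^ (2 ^ n)) = linPoly m l x := by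
  induction n with
  | zero => simp [linPoly]
  | succ n ih =>
    rw [← ih]
    unfold linPoly
    have e1 : ∀ i, l (n + 1 + i) * (x ^ 2 ^ (n + 1)) ^ 2 ^ i
        = (fun j => l (n + j) * (x ^ 2 ^ n) ^ 2 ^ j) (i + 1) := by
      intro i
      simp only
      rw [show n + 1 + i = n + (i + 1) by ring, ← pow_mul, ← pow_mul, ← pow_add, ← pow_add,
        show n + 1 + i = n + (i + 1) by ring]
    rw [Finset.sum_congr rfl fun i _ => e1 i]
    have e2 := Finset.sum_range_succ (fun j => l (n + j) * (x ^ 2 ^ n) ^ 2 ^ j) m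
    have e3 := Finset.sum_range_succ' (fun j => l (n + j) * (x ^ 2 ^ n) ^ 2 ^ j) m
    have e4 : (x ^ 2 ^ n) ^ 2 ^ m = x ^ 2 ^ n := by rw [← hcard, FiniteField.pow_card]
    rw [e2, hper, e4] at e3
    simp only [add_zero, pow_zero, pow_one] at e3
    exact (add_right_cancel e3).symm

lemma carries_shift {t : ℕ} (hcard : Fintype.card F = 2 ^ (2 * t + 1)) {l : ℕ → F}
    (hper : ∀ k, l (k + (2 * t + 1)) = l k) (hL : Carries t (linPoly (2 * t + 1) l)) (n : ℕ) :
    Carries t (linPoly (2 * t + 1) (fun i => l (n + i))) := by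
  intro b
  obtain ⟨a', b', c', h⟩ := hL b
  refine ⟨a' ^ 2 ^ n, b' ^ 2 ^ n, c' ^ 2 ^ n, fun y => ?_⟩
  obtain ⟨x, rfl⟩ := surj_pow_two_pow n y
  rw [linPoly_shift hcard hper n x, h x, ← tr_pow_two_pow n]
  congr 1
  rw [add_pow_two_pow, add_pow_two_pow, mul_pow, mul_pow, mul_pow]
  rw [← pow_mul x, ← pow_mul x, ← pow_mul x, ← pow_mul x, mul_comm (2 ^ n) (1 + 2 ^ (t - 1)),
    mul_comm (2 ^ n) (1 + 2 ^ t)]

theorem no_carries {t : ℕ} (ht : 3 ≤ t) (hcard : Fintype.card F = 2 ^ (2 * t + 1)) (L : F → F)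
    (hadd : ∀ x y, L (x + y) = L x + L y) (hinj : Function.Injective L) (hC : Carries t L) :
    False := by
  obtain ⟨l, hper, hl⟩ := exists_linPoly hcard L hadd
  have hfun : L = linPoly (2 * t + 1) l := funext hl
  rw [hfun] at hC
  have hrel : ∀ n, l (n + 1) ^ 3 = l (n + 2) * l n ^ 2 := by
    intro n
    have := coeff_rel ht hcard (fun i => l (n + i)) (carries_shift hcard hper hC n)
    simpa using this
  have hbig : 2 < Fintype.card F := by
    rw [hcard]
    calc 2 < 2 ^ 7 := by norm_num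
      _ ≤ 2 ^ (2 * t + 1) := Nat.pow_le_pow_right (by norm_num) (by omega)
  by_cases hzero : ∃ n, l n = 0
  · obtain ⟨n, hn⟩ := hzero
    have hall : ∀ k, l (n + k) = 0 := by
      intro k
      induction k with
      | zero => exact hn
      | succ k ih =>
        have := hrel (n + k)
        rw [ih] at this
        have h3 : l (n + k + 1) ^ 3 = 0 := by rw [this]; ring
        exact (pow_eq_zero_iff (by norm_num)).1 h3
    have hz : ∀ x, L x = 0 := by
      intro x
      have hp : ∀ j k, l (k + j * (2 * t + 1)) = l k := by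
        intro j
        induction j with
        | zero => intro k; simp
        | succ j ih =>
          intro k
          rw [show k + (j + 1) * (2 * t + 1) = (k + j * (2 * t + 1)) + (2 * t + 1) by ring, hper, ih]
      rw [hl x, linPoly]
      refine Finset.sum_eq_zero fun i _ => ?_
      have : l i = 0 := by
        rw [← hp n i]
        have : i + n * (2 * t + 1) = n + (i + n * (2 * t)) := by ring
        rw [this]; exact hall _
      rw [this, zero_mul]
    have h01 : (0 : F) = 1 := hinj (by rw [hz, hz])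
    exact zero_ne_one h01
  · push Not at hzero
    set ρ := l 1 / l 0 with hρ
    have hρ0 : ρ ≠ 0 := div_ne_zero (hzero 1) (hzero 0)
    have hform : ∀ n, ρ * l n = l 0 * ρ ^ (2 ^ n) ∧ ρ * l (n + 1) = l 0 * ρ ^ (2 ^ (n + 1)) := by
      intro n
      induction n with
      | zero =>
        constructor
        · simp; ring
        · have h0 := hzero 0
          simp only [zero_add, pow_one]
          rw [hρ]; field_simp
      | succ n ih =>
        refine ⟨ih.2, ?_⟩
        have h1 := hrel n
        have h2 : (ρ * l n) ^ 2 * (ρ * l (n + 2)) = (ρ * l (n + 1)) ^ 3 := by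
          calc (ρ * l n) ^ 2 * (ρ * l (n + 2)) = ρ ^ 3 * (l (n + 2) * l n ^ 2) := by ring
            _ = ρ ^ 3 * (l (n + 1) ^ 3) := by rw [h1]
            _ = (ρ * l (n + 1)) ^ 3 := by ring
        rw [ih.1, ih.2] at h2
        have h3 : (l 0 * ρ ^ 2 ^ n) ^ 2 ≠ 0 := pow_ne_zero _ (mul_ne_zero (hzero 0) (pow_ne_zero _ hρ0))
        have h4 : (l 0 * ρ ^ 2 ^ (n + 1)) ^ 3 = (l 0 * ρ ^ 2 ^ n) ^ 2 * (l 0 * ρ ^ (2 ^ (n + 1 + 1))) := by
          have e : ρ ^ 2 ^ (n + 1 + 1) = ρ ^ (2 ^ n) * ρ ^ (2 ^ n) * ρ ^ (2 ^ n) * ρ ^ (2 ^ n) := by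
            rw [← pow_add, ← pow_add, ← pow_add]; congr 1; ring
          have e' : ρ ^ 2 ^ (n + 1) = ρ ^ (2 ^ n) * ρ ^ (2 ^ n) := by
            rw [← pow_add]; congr 1; ring
          rw [e, e']; ring
        rw [h4] at h2
        exact mul_left_cancel₀ h3 h2
    have hval : ∀ x, ρ * L x = l 0 * algebraMap (ZMod 2) F (tr (ρ * x)) := by
      intro x
      rw [hl x, linPoly, algebraMap_tr, finrank_eq hcard, Finset.mul_sum, Finset.mul_sum]
      refine Finset.sum_congr rfl fun i _ => ?_
      rw [← mul_assoc, (hform i).1, mul_pow]; ring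
    have hinj2 : Function.Injective (fun x : F => tr (ρ * x)) := by
      intro x y hxy
      apply hinj
      apply mul_left_cancel₀ hρ0
      rw [hval, hval]
      have : tr (ρ * x) = tr (ρ * y) := hxy
      rw [this]
    have := Fintype.card_le_of_injective _ hinj2
    rw [ZMod.card] at this
    omega

end Pool.Agent.H81
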