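import Mathlib
import Pool.Agent.H81.Lin2

/-!
The function-level inequivalence, and the double annihilator argument.
-/

set_option autoImplicit false
set_option linter.unusedSectionVars false
set_option linter.unusedSimpArgs false

namespace Pool.Agent.H81

open Finset

variable {F : Type*} [Field F] [Fintype F] [DecidableEq F] [Algebra (ZMod 2) F]

/-- The functions `Tr (a x + b x^(1+2^(t-1)) + c x^(1+2^t))`. -/
noncomputable def fC (t : ℕ) (a b c : F) (x : F) : ZMod 2 :=
  tr (a * x + b * x ^ (1 + 2 ^ (t - 1)) + c * x ^ (1 + 2 ^ t))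

lemma fC_zero (t : ℕ) (a b c : F) : fC t a b c 0 = 0 := by
  unfold fC
  rw [zero_pow (by positivity), zero_pow (by positivity)]
  simp [tr_zero]

lemma Bil_fC (t : ℕ) (a b c x y : F) : Bil (fC t a b c) x y =
    tr (b * (x * y ^ (2 ^ (t - 1)) + y * x ^ (2 ^ (t - 1))) +
      c * (x * y ^ (2 ^ t) + y * x ^ (2 ^ t))) := by
  unfold Bil fC
  rw [← tr_add, ← tr_add]
  congr 1
  have h2 := two_eq_zero' (F := F)
  have e1 : (x + y) ^ (1 + 2 ^ (t - 1)) = (x + y) * (x ^ (2 ^ (t - 1)) + y ^ (2 ^ (t - 1))) := by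
    rw [pow_add, pow_one, add_pow_two_pow]
  have e2 : (x + y) ^ (1 + 2 ^ t) = (x + y) * (x ^ (2 ^ t) + y ^ (2 ^ t)) := by
    rw [pow_add, pow_one, add_pow_two_pow]
  have e3 : ∀ (u : F) (k : ℕ), u ^ (1 + 2 ^ k) = u * u ^ (2 ^ k) := fun u k => by rw [pow_add, pow_one]
  rw [e1, e2, e3 x, e3 x, e3 y, e3 y]
  linear_combination (a * (x + y) + b * (x * x ^ (2 ^ (t - 1)) + y * y ^ (2 ^ (t - 1))) +
    c * (x * x ^ (2 ^ t) + y * y ^ (2 ^ t))) * h2

lemma isQuad_fC (t : ℕ) (a b c : F) : IsQuad (fC t a b c) := by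
  intro x y z
  rw [Bil_fC, Bil_fC, Bil_fC, ← tr_add]
  congr 1
  rw [add_pow_two_pow, add_pow_two_pow]
  ring

lemma fC_lin (t : ℕ) (a : F) (x : F) : fC t a 0 0 x = tr (a * x) := by
  unfold fC; congr 1; ring

lemma S_comp (σ : Equiv.Perm F) (f : F → ZMod 2) : S (fun x => f (σ x)) = S f := by
  unfold S; exact Equiv.sum_comp σ (fun x => sgn (f x))

/-- There is no permutation of the field fixing `0` that identifies the two function spaces. -/
theorem func_inequiv {t : ℕ} (ht : 3 ≤ t) (hcard : Fintype.card F = 2 ^ (2 * t + 1))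
    (σ : Equiv.Perm F)
    (h1 : ∀ (a : F) (z : F × F), ∃ a' b' c' : F, ∀ x, fB a z (σ x) = fC t a' b' c' x)
    (h2 : ∀ a' b' c' : F, ∃ (a : F) (z : F × F), ∀ x, fC t a' b' c' x = fB a z (σ x)) : False := by
  -- linear functions go to linear functions
  have hlin : ∀ a' : F, ∃ a : F, ∀ x, tr (a' * x) = tr (a * σ x) := by
    intro a'
    obtain ⟨a0, z0, h0⟩ := h2 a' 0 0
    have hz0 : z0 = 0 := by
      apply eq_zero_of_pattern ht hcard a0 z0
      intro a z hS hS'
      obtain ⟨a1, b1, c1, hf⟩ := h1 a z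
      have e1 : S (fB a z) = S (fC t a1 b1 c1) := by
        rw [← S_comp σ]; congr 1; funext x; exact hf x
      have e2 : S (fun x => fB a z x + fB a0 z0 x) = S (fun x => fC t a1 b1 c1 x + tr (a' * x)) := by
        rw [← S_comp σ]; congr 1; funext x
        rw [hf x, ← h0 x, fC_lin]
      rw [e1] at hS ⊢
      rw [e2] at hS' ⊢
      have hw : ∀ x y : F, tr (a' * (x + y)) = tr (a' * x) + tr (a' * y) := by
        intro x y; rw [mul_add, tr_add]
      rw [S_sq_of_ne add_self_F (isQuad_fC t a1 b1 c1) hS,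
        S_sq_of_ne add_self_F (IsQuad_add_hom (isQuad_fC t a1 b1 c1) (fun x => tr (a' * x)) hw) hS',
        rad_add_hom _ _ hw]
    refine ⟨a0, fun x => ?_⟩
    have := h0 x
    rw [fC_lin, hz0] at this
    rw [this]
    unfold fB; congr 1; simp
  -- σ is additive
  have hadd' : ∀ x y, σ.symm (x + y) = σ.symm x + σ.symm y := by
    intro x y
    have : σ.symm (x + y) - (σ.symm x + σ.symm y) = 0 := by
      apply tr_nondeg
      intro b
      obtain ⟨a, ha⟩ := hlin b
      have e : (σ.symm (x + y) - (σ.symm x + σ.symm y)) * b =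
          b * σ.symm (x + y) + (b * σ.symm x + b * σ.symm y) := by
        have h2 := two_eq_zero' (F := F)
        linear_combination (- b * (σ.symm x + σ.symm y)) * h2
      rw [e, tr_add, tr_add, ha, ha, ha]
      simp only [Equiv.apply_symm_apply]
      rw [← tr_add, ← tr_add, ← mul_add, ← mul_add]
      rw [add_self_F, mul_zero, tr_zero]
    exact sub_eq_zero.1 this
  have hadd : ∀ x y, σ (x + y) = σ x + σ y := by
    intro x y
    apply σ.symm.injective
    rw [hadd']; simp
  refine no_carries ht hcard σ hadd σ.injective ?_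
  intro b
  obtain ⟨a', b', c', h⟩ := h1 0 (b, 0)
  refine ⟨a', b', c', fun x => ?_⟩
  rw [← fC, ← h x]
  unfold fB; congr 1; simp

/-! ### double annihilator -/

/-- pairing with a fixed word, as a linear functional. -/
def dotL {n : ℕ} (f : Fin n → ZMod 2) : (Fin n → ZMod 2) →ₗ[ZMod 2] ZMod 2 where
  toFun c := ∑ i, c i * f i
  map_add' c d := by simp [add_mul, Finset.sum_add_distrib]
  map_smul' r c := by simp [Finset.mul_sum, mul_assoc]

lemma dotL_apply {n : ℕ} (f c : Fin n → ZMod 2) : dotL f c = ∑ i, c i * f i := rfl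

lemma dotL_inj {n : ℕ} {f g : Fin n → ZMod 2} (h : dotL f = dotL g) : f = g := by
  funext i
  have := LinearMap.congr_fun h (Pi.single i 1)
  simpa [dotL_apply, Pi.single_apply] using this

lemma dotL_add {n : ℕ} (f g : Fin n → ZMod 2) : dotL (f + g) = dotL f + dotL g := by
  refine LinearMap.ext fun c => ?_
  simp [dotL_apply, mul_add, Finset.sum_add_distrib]

lemma dotL_zero {n : ℕ} : dotL (0 : Fin n → ZMod 2) = 0 := by
  refine LinearMap.ext fun c => ?_
  simp [dotL_apply]

theorem mem_range_of_annihilates {n : ℕ} {P : Type*} [AddCommGroup P]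
    (T : P → (Fin n → ZMod 2)) (hT : ∀ p p', T (p + p') = T p + T p') (f : Fin n → ZMod 2)
    (h : ∀ c : Fin n → ZMod 2, (∀ p, ∑ i, c i * T p i = 0) → ∑ i, c i * f i = 0) :
    ∃ p, f = T p := by
  have hT0 : T 0 = 0 := by
    have := hT 0 0
    rw [add_zero] at this
    exact left_eq_add.1 this
  have hmem : dotL f ∈ Submodule.span (ZMod 2) (Set.range fun p => dotL (T p)) := by
    apply FiniteDimensional.mem_span_of_iInf_ker_le_ker
    intro c hc
    rw [Submodule.mem_iInf] at hc
    rw [LinearMap.mem_ker, dotL_apply]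
    apply h
    intro p
    have := hc p
    rwa [LinearMap.mem_ker, dotL_apply] at this
  have hspan : ∀ K ∈ Submodule.span (ZMod 2) (Set.range fun p => dotL (T p)), ∃ p, K = dotL (T p) := by
    intro K hK
    induction hK using Submodule.span_induction with
    | mem x hx => obtain ⟨p, rfl⟩ := hx; exact ⟨p, rfl⟩
    | zero => exact ⟨0, by rw [hT0, dotL_zero]⟩
    | add x y _ _ hx hy =>
      obtain ⟨p, rfl⟩ := hx
      obtain ⟨p', rfl⟩ := hy
      exact ⟨p + p', by rw [hT, dotL_add]⟩
    | smul a x _ hx =>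
      obtain ⟨p, rfl⟩ := hx
      rcases zmod2_cases a with rfl | rfl
      · exact ⟨0, by rw [hT0, dotL_zero, zero_smul]⟩
      · exact ⟨p, by rw [one_smul]⟩
  obtain ⟨p, hp⟩ := hspan _ hmem
  exact ⟨p, dotL_inj hp⟩

end Pool.Agent.H81
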